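import Pool.Agent.Lib.MP_544a1b_al.Main

/-! A torsion-free group all of whose two-generator subgroups are nilpotent and all of whose
abelian subgroups have finite rank is nilpotent. -/

set_option autoImplicit false

universe u

namespace Pool.Agent.Lib.MP_544a1b_al.Weaker

open Pool.Agent.Lib.MP_544a1b_al

/-- Torsion-free case of Q1 for groups whose two-generator subgroups are nilpotent: if moreover
each abelian subgroup has finite Pruefer rank, then the whole group is nilpotent. -/
theorem torsionFree_binary_nilpotent (G : Type u) [Group G]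
    (htf : ∀ (g : G) (n : ℕ), 0 < n → g ^ n = 1 → g = 1)
    (hbin : ∀ x y : G, Group.IsNilpotent (Subgroup.closure ({x, y} : Set G)))
    (hab : ∀ A : Subgroup G, (∀ a ∈ A, ∀ b ∈ A, a * b = b * a) →
      ∃ r : ℕ, ∀ H : Subgroup G, H ≤ A → H.FG →
        ∃ s : Finset G, s.card ≤ r ∧ Subgroup.closure (s : Set G) = H) :
    Group.IsNilpotent G := by
  refine TB.isNilpotent ⟨htf, hbin⟩ ?_
  intro A hA
  obtain ⟨r, hr⟩ := hab A (fun a ha b hb => (hA a ha b hb).eq)
  exact ⟨r, len_of_abelian A (fun a ha b hb => (hA a ha b hb).eq) r hr⟩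

end Pool.Agent.Lib.MP_544a1b_al.Weaker
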